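import Pool.Agent.Lib.MP_b9289b_nt.Mg.G005
import Pool.Agent.Lib.MP_b9289b_nt.Mg.G002
import Pool.Agent.Lib.MP_b9289b_nt.Mg.G006
import Pool.Agent.Lib.MP_b9289b_nt.Mg.G003

/-!
# J06: the conclusion

`w : Fin 5 → (ℍ → ℂ)` from `form_hol` for `xs, ys` (`IsData.xs_ys`, `lam_slit`) satisfies `IsW`, `w j ≠ 0`,
periods of `w j` in `PerGrp Φ_j`, `Φ_j` from `exists_isPhi (lam t j)`; `2 K, 2 i K'` are in
`PerGrp Φ_j` (`IsPhi.KK_mem`, `IsPhi.I_KK_mem`), the periods of `w j` are in no real line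
(`exists_period_im_ne`).  `Omega GY` is finite dimensional by `O_main` (spanned by the `w j`).
By `Dom.exists_dual` and `conj_forms` there are two independent `η₁, η₂ ∈ Omega GY` with periods in a
discrete `M`; write `η_i = ∑ c_{ij} w_j` (`O_main`); since they are independent there are `j ≠ k` and
`i, i'` with `c_{ij} ≠ 0`, `c_{i'k} ≠ 0`; `lattice_compare` gives `SameLat (lam t j) (lam t k)`.
-/

open UpperHalfPlane Filter Topology MatrixGroups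
open scoped ContDiff ComplexConjugate

noncomputable section

namespace Pool.Agent.Lib.MP_b9289b_nt

open Mer

variable {t : ℝ} {S D h0 h2 dl : Mer}

theorem IsData.exists_w (h : IsData t S D h0 h2 dl) : ∃ w : Fin 5 → (ℍ → ℂ),
    IsW t S D h2 dl w ∧ ∀ j, w j ≠ 0 := by
  have h1 : ∀ j : Fin 5, ∃ (w : ℍ → ℂ) (hw : IsHol w), w ∈ Omega (GY S D h2 dl) ∧
      Mer.mk w hw.isMero = der (xs t S j) / ys t S D h2 dl j ∧ w ≠ 0 := by
    intro j
    obtain ⟨hx, hy, hc, he⟩ := h.xs_ys j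
    obtain ⟨-, -, h3, h4⟩ := lam_slit h.ht j
    exact form_hol h3 h4 hx hy hc he
  choose w hw hΩ hmk hne using h1
  exact ⟨w, fun j => ⟨hw j, hΩ j, hmk j⟩, hne⟩

theorem IsData.finite (h : IsData t S D h0 h2 dl) :
    FiniteDimensional ℂ (Omega (GY S D h2 dl)) := by
  obtain ⟨w, hw, -⟩ := h.exists_w
  have hle : Omega (GY S D h2 dl) ≤ Submodule.span ℂ (Set.range w) := by
    intro η hη
    obtain ⟨c, hc, -⟩ := h.O_main hw hη
    rw [hc]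
    exact Submodule.sum_mem _ fun j _ =>
      Submodule.smul_mem _ _ (Submodule.subset_span ⟨j, rfl⟩)
  have hfin : FiniteDimensional ℂ (Submodule.span ℂ (Set.range w)) :=
    FiniteDimensional.span_of_finite ℂ (Set.finite_range w)
  exact Submodule.finiteDimensional_of_le hle

/-- Two independent differentials on `Y` with periods in a common discrete group. -/
theorem IsData.sameLat_of_two (h : IsData t S D h0 h2 dl) {M : AddSubgroup ℂ}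
    (hM : DiscreteTopology M) {η₁ η₂ : Omega (GY S D h2 dl)}
    (hind : LinearIndependent ℂ ![η₁, η₂])
    (h₁ : ∀ γ ∈ GY S D h2 dl, period (η₁ : ℍ → ℂ) γ ∈ M)
    (h₂ : ∀ γ ∈ GY S D h2 dl, period (η₂ : ℍ → ℂ) γ ∈ M) :
    ∃ j k : Fin 5, j ≠ k ∧ SameLat (lam t j) (lam t k) := by
  obtain ⟨w, hw, hne⟩ := h.exists_w
  obtain ⟨c₁, hc₁, hL₁⟩ := h.O_main hw η₁.2
  obtain ⟨c₂, hc₂, hL₂⟩ := h.O_main hw η₂.2
  have hcoc : Cocompact (GY S D h2 dl) := h.surfaceY.2.1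
  rw [LinearIndependent.pair_iff] at hind
  have hex : ∃ j k : Fin 5, j ≠ k ∧ (c₁ j ≠ 0 ∨ c₂ j ≠ 0) ∧ (c₁ k ≠ 0 ∨ c₂ k ≠ 0) := by
    by_contra hcon
    push Not at hcon
    have h3 : ∃ j, c₁ j ≠ 0 := by
      by_contra h4
      push Not at h4
      have h5 : (η₁ : ℍ → ℂ) = 0 := by
        rw [hc₁]
        exact Finset.sum_eq_zero fun j _ => by rw [h4 j, zero_smul]
      have h6 := (hind 1 0 (by
        rw [zero_smul, add_zero, one_smul]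
        exact Subtype.ext h5)).1
      exact one_ne_zero h6
    obtain ⟨j, hj⟩ := h3
    have h4 : ∀ k, k ≠ j → c₁ k = 0 ∧ c₂ k = 0 := by
      intro k hk
      exact hcon j k hk.symm (Or.inl hj)
    have h5 : (η₁ : ℍ → ℂ) = c₁ j • w j := by
      rw [hc₁]
      exact Finset.sum_eq_single j (fun k _ hk => by rw [(h4 k hk).1, zero_smul])
        (fun h6 => absurd (Finset.mem_univ _) h6)
    have h6 : (η₂ : ℍ → ℂ) = c₂ j • w j := by
      rw [hc₂]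
      exact Finset.sum_eq_single j (fun k _ hk => by rw [(h4 k hk).2, zero_smul])
        (fun h6 => absurd (Finset.mem_univ _) h6)
    have h7 := (hind (c₂ j) (-(c₁ j)) (by
      apply Subtype.ext
      have h8 : ((c₂ j • η₁ + -(c₁ j) • η₂ : Omega (GY S D h2 dl)) : ℍ → ℂ) =
          c₂ j • (η₁ : ℍ → ℂ) + -(c₁ j) • (η₂ : ℍ → ℂ) := rfl
      rw [h8, h5, h6, smul_smul, smul_smul, ← add_smul]
      have h9 : c₂ j * c₁ j + -(c₁ j) * c₂ j = 0 := by ring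
      rw [h9, zero_smul]
      rfl)).2
    exact hj (neg_eq_zero.1 h7)
  obtain ⟨j, k, hjk, hj, hk⟩ := hex
  have hgood : ∀ j, (c₁ j ≠ 0 ∨ c₂ j ≠ 0) → ∃ c : ℂ, c ≠ 0 ∧
      ∀ γ ∈ GY S D h2 dl, c * period (w j) γ ∈ M := by
    intro j hj
    have h32 : (32 : ℂ) ≠ 0 := by norm_num
    rcases hj with hj | hj
    · exact ⟨32 * c₁ j, mul_ne_zero h32 hj, hL₁ M h₁ j⟩
    · exact ⟨32 * c₂ j, mul_ne_zero h32 hj, hL₂ M h₂ j⟩
  obtain ⟨c, hc, hcM⟩ := hgood j hj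
  obtain ⟨c', hc', hcM'⟩ := hgood k hk
  have hper : ∀ j, ∃ L : AddSubgroup ℂ, DiscreteTopology L ∧ 2 * KK (lam t j) ∈ L ∧
      2 * (Complex.I * KK (1 - lam t j)) ∈ L ∧ ∀ γ ∈ GY S D h2 dl, period (w j) γ ∈ L := by
    intro j
    obtain ⟨Φ, hΦ⟩ := exists_isPhi (lam t j)
    obtain ⟨Ψ, hΨ⟩ := exists_isPhi (1 - lam t j)
    obtain ⟨hx, hy, hcc, he⟩ := h.xs_ys j
    obtain ⟨s1, s2, -, -⟩ := lam_slit h.ht j
    obtain ⟨hwj, hΩ, hmk⟩ := hw j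
    exact ⟨PerGrp Φ, hΦ.discrete, hΦ.KK_mem s2, hΦ.I_KK_mem hΨ s1,
      form_periods hΦ hcoc hx hy hcc he hwj hΩ hmk⟩
  obtain ⟨L, hLd, hL1, hL2, hL3⟩ := hper j
  obtain ⟨L', hLd', hL1', hL2', hL3'⟩ := hper k
  refine ⟨j, k, hjk, ?_⟩
  refine lattice_compare (lam_TT h.ht j).1 (lam_TT h.ht k).1 (lam_TT h.ht j).2 (lam_TT h.ht k).2
    hLd hLd' hM hL1 hL2 hL1' hL2' (P := {p | ∃ γ ∈ GY S D h2 dl, p = period (w j) γ})
    (P' := {p | ∃ γ ∈ GY S D h2 dl, p = period (w k) γ}) ?_ ?_ ?_ ?_ hc hc' ?_ ?_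
  · rintro _ ⟨γ, hγ, rfl⟩
    exact hL3 γ hγ
  · rintro _ ⟨γ, hγ, rfl⟩
    exact hL3' γ hγ
  · intro α hα
    obtain ⟨γ, hγ, h3⟩ := exists_period_im_ne hcoc (hw j).choose_spec.1 (hne j) hα
    exact ⟨_, ⟨γ, hγ, rfl⟩, h3⟩
  · intro α hα
    obtain ⟨γ, hγ, h3⟩ := exists_period_im_ne hcoc (hw k).choose_spec.1 (hne k) hα
    exact ⟨_, ⟨γ, hγ, rfl⟩, h3⟩
  · rintro _ ⟨γ, hγ, rfl⟩
    exact hcM γ hγ
  · rintro _ ⟨γ, hγ, rfl⟩
    exact hcM' γ hγ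

theorem IsData.not_isogenous (h : IsData t S D h0 h2 dl)
    (ht : ∀ j k : Fin 5, j ≠ k → ¬ SameLat (lam t j) (lam t k)) {σ : ℂ ≃+* ℂ}
    {Γ' : Subgroup SL(2, ℝ)} (hΓ' : IsSurfaceGroup Γ')
    (hconj : IsGaloisConj σ (GX S D h0 h2) Γ') :
    ¬ JacobianIsogenous (GY S D h2 dl) Γ' ∧ ¬ JacobianIsogenous Γ' (GY S D h2 dl) := by
  have key : ¬ Dom (GY S D h2 dl) Γ' := by
    intro hdom
    obtain ⟨Φ, hΦ, hper⟩ := hdom.exists_dual h.finite
    obtain ⟨L, w1, w2, hL, hind, h1, h3⟩ := h.conj_forms hΓ' hconj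
    have hind' : LinearIndependent ℂ ![Φ w1, Φ w2] := by
      rw [LinearIndependent.pair_iff] at hind ⊢
      intro a b hab
      apply hind a b
      apply hΦ
      rw [map_add, map_smul, map_smul, hab, map_zero]
    obtain ⟨j, k, hjk, hs⟩ := h.sameLat_of_two hL hind' (hper w1 L h1) (hper w2 L h3)
    exact ht j k hjk hs
  exact ⟨fun h1 => key (dom_of_isog hΓ' h1), fun h1 => key (dom_of_isog' h.surfaceY hΓ' h1)⟩

/-- The main theorem, given the orbifold functions `κ`. -/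
theorem main_of_orb (hU : ¬ {t : ℝ | ∃ κ, IsOrb t κ}.Countable) : MainStatement := by
  obtain ⟨N, hN, hN'⟩ := exists_countable
  have h1 : ∃ t ∈ {t : ℝ | ∃ κ, IsOrb t κ}, t ∉ N := by
    by_contra hc
    push Not at hc
    exact hU (hN.mono hc)
  obtain ⟨t, ⟨κ, hκ⟩, htN⟩ := h1
  obtain ⟨S, D, hS⟩ := hκ.exists_isS
  obtain ⟨h0, h2, dl, h⟩ := hS.exists_data
  refine ⟨GX S D h0 h2, GY S D h2 dl, h.surfaceX, h.surfaceY, h.isospectral, ?_⟩
  intro σ Γ' hΓ' hconj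
  exact h.not_isogenous (hN' t hκ.ht htN) hΓ' hconj

end Pool.Agent.Lib.MP_b9289b_nt
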